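import Mathlib

set_option autoImplicit false

/-! Elementary estimates (copied from the files `helper391_DG`, `helper391_OM`, `helper391_PT` of helper391). -/

namespace Pool.Agent.H436.RG

open Filter Finset

/-- the record scale as a function of the logarithm -/
noncomputable def F (l : ℝ) : ℝ :=
  l * (Real.log l) ^ 2 * Real.log (Real.log (Real.log l)) / (Real.log (Real.log l)) ^ 2

theorem F_scale (η : ℝ) (hη : 0 < η) : ∃ R : ℝ, ∀ L : ℝ, R ≤ L → ∀ L' : ℝ, η * L ≤ L' → L' ≤ L →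
    0 < F L ∧ η / 8 * F L ≤ F L' := by
  have hlog := Real.tendsto_log_atTop
  have hll : Tendsto (fun l : ℝ => Real.log (Real.log l)) atTop atTop := hlog.comp hlog
  have hlll : Tendsto (fun l : ℝ => Real.log (Real.log (Real.log l))) atTop atTop := hlog.comp hll
  have hev := (((hlog.eventually_ge_atTop (2 * |Real.log η|)).and (hll.eventually_ge_atTop 4)).and
    (hlll.eventually_ge_atTop 2)).and (eventually_ge_atTop (1 : ℝ))
  obtain ⟨R, hR⟩ := eventually_atTop.1 hev
  refine ⟨R, fun L hL L' h1 h2 => ?_⟩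
  obtain ⟨⟨⟨a1, a2⟩, a3⟩, a4⟩ := hR L hL
  have hL0 : 0 < L := by linarith
  have hL'0 : 0 < L' := lt_of_lt_of_le (by positivity) h1
  set u := Real.log L with hu
  set s := Real.log u with hs
  set w := Real.log s with hw
  have hs0 : 0 < s := by linarith
  have hu0 : 0 < u := by
    by_contra hcon
    push Not at hcon
    have h3 : 0 ≤ -u := by linarith
    rcases eq_or_lt_of_le hcon with h4 | h4
    · rw [hs, h4, Real.log_zero] at a2; linarith
    · have h5 : 0 ≤ 2 * |Real.log η| := by positivity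
      linarith
  have hw0 : 0 < w := by linarith
  have hl2 : Real.log 2 ≤ 1 := by
    have := Real.log_two_lt_d9
    linarith
  set u' := Real.log L' with hu'
  have hu'1 : u / 2 ≤ u' := by
    have h3 : Real.log (η * L) ≤ u' := Real.log_le_log (by positivity) h1
    rw [Real.log_mul hη.ne' hL0.ne', ← hu] at h3
    have h4 := neg_abs_le (Real.log η)
    linarith
  have hu'2 : u' ≤ u := Real.log_le_log hL'0 h2
  have hu'0 : 0 < u' := by linarith
  set s' := Real.log u' with hs'
  have hs'1 : s - 1 ≤ s' := by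
    have h3 : Real.log (u / 2) ≤ s' := Real.log_le_log (by linarith) hu'1
    rw [Real.log_div hu0.ne' (by norm_num), ← hs] at h3
    linarith
  have hs'2 : s' ≤ s := Real.log_le_log hu'0 hu'2
  have hs'0 : 0 < s' := by linarith
  set w' := Real.log s' with hw'
  have hw'1 : w / 2 ≤ w' := by
    have h3 : Real.log (s / 2) ≤ w' := Real.log_le_log (by linarith) (by linarith)
    rw [Real.log_div hs0.ne' (by norm_num), ← hw] at h3
    linarith
  have hFL : F L = L * u ^ 2 * w / s ^ 2 := rfl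
  have hFL' : F L' = L' * u' ^ 2 * w' / s' ^ 2 := rfl
  rw [hFL, hFL']
  refine ⟨by positivity, ?_⟩
  have h5 : η * L * (u / 2) ^ 2 * (w / 2) ≤ L' * u' ^ 2 * w' := by
    gcongr
  have h6 : η / 8 * (L * u ^ 2 * w / s ^ 2) = η * L * (u / 2) ^ 2 * (w / 2) / s ^ 2 := by
    ring
  rw [h6]
  calc η * L * (u / 2) ^ 2 * (w / 2) / s ^ 2 ≤ L' * u' ^ 2 * w' / s ^ 2 := by gcongr
    _ ≤ L' * u' ^ 2 * w' / s' ^ 2 := by
        apply div_le_div_of_nonneg_left
        · have : 0 ≤ w' := by linarith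
          positivity
        · positivity
        · gcongr

theorem thr_large (T : ℝ) : ∀ᶠ x : ℝ in atTop,
    T ≤ Real.exp (Real.log (Real.log x) * Real.log (Real.log (Real.log (Real.log x))) /
        (20 * Real.log (Real.log (Real.log x)))) := by
  have hlog := Real.tendsto_log_atTop
  have hll : Tendsto (fun l : ℝ => Real.log (Real.log l)) atTop atTop := hlog.comp hlog
  have key : ∀ᶠ s : ℝ in atTop, T ≤ Real.exp (s * Real.log (Real.log s) / (20 * Real.log s)) := by
    have h1 := Real.isLittleO_log_id_atTop.def (show (0 : ℝ) < 1 / (20 * (|T| + 1)) by positivity)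
    have h2 := ((h1.and (hlog.eventually_ge_atTop 1)).and (hll.eventually_ge_atTop 1)).and
      (eventually_ge_atTop (1 : ℝ))
    filter_upwards [h2] with s hs
    obtain ⟨⟨⟨a1, a2⟩, a3⟩, a4⟩ := hs
    have hls : 0 < Real.log s := by linarith
    rw [Real.norm_eq_abs, abs_of_pos hls, id, Real.norm_eq_abs,
      abs_of_pos (show (0 : ℝ) < s by linarith)] at a1
    have h3 : |T| + 1 ≤ s / (20 * Real.log s) := by
      rw [le_div_iff₀ (by positivity)]
      have h4 : 0 < 20 * (|T| + 1) := by positivity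
      rw [one_div_mul_eq_div, le_div_iff₀ h4] at a1
      linarith
    have h4 : s / (20 * Real.log s) ≤ s * Real.log (Real.log s) / (20 * Real.log s) := by
      apply div_le_div_of_nonneg_right _ (by positivity)
      nlinarith
    have h5 := Real.add_one_le_exp (s * Real.log (Real.log s) / (20 * Real.log s))
    have h6 := le_abs_self T
    linarith
  exact hll.eventually key

/-- Chebyshev's lower bound, simplified. -/
theorem theta_lower : ∃ n₀ : ℕ, ∀ n : ℕ, n₀ ≤ n → (n : ℝ) / 3 ≤ Chebyshev.theta n := by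
  have h1 := (isLittleO_log_rpow_atTop (show (0 : ℝ) < 1 / 4 by norm_num)).def
    (show (0 : ℝ) < 1 / 1000 by norm_num)
  have hcast : Tendsto (fun k : ℕ => (k : ℝ)) atTop atTop := tendsto_natCast_atTop_atTop
  have h2 := hcast.eventually h1
  obtain ⟨n₀, hn₀⟩ := eventually_atTop.1 ((h2.and (hcast.eventually_ge_atTop 1000)).and
    ((Real.tendsto_log_atTop.comp hcast).eventually_ge_atTop 1))
  refine ⟨n₀, fun n hn => ?_⟩
  obtain ⟨⟨a1, a2⟩, a3⟩ := hn₀ n hn
  have a3' : 1 ≤ Real.log (n : ℝ) := a3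
  refine le_trans ?_ (Chebyshev.theta_ge n)
  have hn0 : (0 : ℝ) < n := by linarith
  set r : ℝ := (n : ℝ) ^ (1 / 4 : ℝ) with hr
  have hr0 : 0 < r := by positivity
  have hr4 : r ^ 4 = n := by
    rw [hr, ← Real.rpow_natCast, ← Real.rpow_mul hn0.le]; norm_num
  have hsq : Real.sqrt n = r ^ 2 := by
    rw [← hr4, show r ^ 4 = (r ^ 2) ^ 2 by ring, Real.sqrt_sq (by positivity)]
  rw [Real.norm_eq_abs, abs_of_nonneg (by linarith), Real.norm_eq_abs, abs_of_pos hr0] at a1
  have hr1 : 1 ≤ r := by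
    by_contra hcon
    push Not at hcon
    have : r ^ 4 < 1 := pow_lt_one₀ hr0.le hcon (by norm_num)
    linarith
  have hlog2 := Real.log_two_gt_d9
  have h3 : Real.log (n + 1) ≤ Real.log n + 1 := by
    have h4 : Real.log ((n : ℝ) + 1) ≤ Real.log (n * 2) := by
      apply Real.log_le_log (by linarith); linarith
    rw [Real.log_mul (by linarith) (by norm_num)] at h4
    have := Real.log_two_lt_d9
    linarith
  rw [hsq]
  have h5 : r ^ 2 * Real.log n ≤ r ^ 2 * (1 / 1000 * r) := by gcongr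
  have h6 : r ^ 3 ≤ r ^ 4 := pow_le_pow_right₀ hr1 (by norm_num)
  have h7 : r ≤ r ^ 4 := by
    calc r = r ^ 1 := (pow_one r).symm
      _ ≤ r ^ 4 := pow_le_pow_right₀ hr1 (by norm_num)
  have h8 : r ^ 2 * (1 / 1000 * r) = 1 / 1000 * r ^ 3 := by ring
  have h9 : (n : ℝ) * 0.6931 ≤ n * Real.log 2 := by
    apply mul_le_mul_of_nonneg_left _ hn0.le
    linarith
  rw [hr4] at h6 h7
  nlinarith

theorem tot_exp (d : ℕ) (hd : d ≠ 0) :
    Real.exp (-2 * ∑ p ∈ d.primeFactors, 1 / (p : ℝ)) ≤ (Nat.totient d : ℝ) / d := by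
  have h1 := Nat.totient_eq_mul_prod_factors d
  have h2 : ((Nat.totient d : ℚ) : ℝ) = ((d * ∏ p ∈ d.primeFactors, (1 - (p : ℚ)⁻¹) : ℚ) : ℝ) := by
    rw [h1]
  push_cast at h2
  rw [h2, mul_div_cancel_left₀ _ (by exact_mod_cast hd), Finset.mul_sum, Real.exp_sum]
  apply Finset.prod_le_prod
  · intro p _; positivity
  · intro p hp
    have hp2 : (2 : ℝ) ≤ p := by exact_mod_cast (Nat.prime_of_mem_primeFactors hp).two_le
    set t : ℝ := (p : ℝ)⁻¹ with ht
    have ht0 : 0 < t := by positivity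
    have ht2 : t ≤ 1 / 2 := by
      rw [ht, ← one_div]
      exact one_div_le_one_div_of_le (by norm_num) hp2
    have h3 : -2 * (1 / (p : ℝ)) = -(2 * t) := by rw [ht]; ring
    rw [h3, Real.exp_neg]
    have h4 := Real.add_one_le_exp (2 * t)
    rw [inv_le_iff_one_le_mul₀ (by positivity)]
    nlinarith


/-- Many primes in `(Y, 8 Y]`. -/
theorem primes_in : ∃ Y₀ : ℝ, ∀ Y : ℝ, Y₀ ≤ Y → ∃ Q : Finset ℕ,
    (∀ q ∈ Q, q.Prime ∧ Y < q ∧ (q : ℝ) ≤ 8 * Y) ∧ Y ≤ Q.card * Real.log (8 * Y) := by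
  classical
  obtain ⟨n₀, hn₀⟩ := theta_lower
  refine ⟨n₀ + 10, fun Y hY => ?_⟩
  have hn0 : (0 : ℝ) ≤ n₀ := Nat.cast_nonneg _
  have hY10 : 10 ≤ Y := by linarith
  set m := ⌊Y⌋₊ with hm
  set N := ⌊8 * Y⌋₊ with hN
  have hmY : (m : ℝ) ≤ Y := Nat.floor_le (by linarith)
  have hYm : Y < m + 1 := Nat.lt_floor_add_one Y
  have hNY : (N : ℝ) ≤ 8 * Y := Nat.floor_le (by linarith)
  have hYN : 8 * Y < N + 1 := Nat.lt_floor_add_one _
  have hmN : m ≤ N := Nat.floor_mono (by linarith)
  have hN₀ : n₀ ≤ N := by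
    have h1 : (n₀ : ℝ) ≤ N := by linarith
    exact_mod_cast h1
  set Q := (Ioc m N).filter Nat.Prime with hQ
  have htheta : Chebyshev.theta N = Chebyshev.theta m + ∑ p ∈ Q, Real.log p := by
    unfold Chebyshev.theta
    rw [Nat.floor_natCast, Nat.floor_natCast, hQ]
    have h1 : (Ioc 0 N).filter Nat.Prime = (Ioc 0 m).filter Nat.Prime ∪
        (Ioc m N).filter Nat.Prime := by
      rw [← Finset.filter_union, Finset.Ioc_union_Ioc_eq_Ioc (Nat.zero_le m) hmN]
    rw [h1, Finset.sum_union]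
    apply Finset.disjoint_filter_filter
    rw [Finset.disjoint_left]
    intro a ha hb
    rw [Finset.mem_Ioc] at ha hb
    omega
  have hθm : Chebyshev.theta m ≤ Real.log 4 * m :=
    Chebyshev.theta_le_log4_mul_x (Nat.cast_nonneg _)
  have hlog4 : Real.log 4 ≤ 1.4 := by
    rw [show (4 : ℝ) = 2 ^ 2 by norm_num, Real.log_pow]
    have := Real.log_two_lt_d9
    push_cast
    linarith
  have hθN := hn₀ N hN₀
  refine ⟨Q, fun q hq => ?_, ?_⟩
  · rw [hQ, Finset.mem_filter, Finset.mem_Ioc] at hq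
    refine ⟨hq.2, ?_, ?_⟩
    · have h1 : (m : ℝ) + 1 ≤ q := by exact_mod_cast hq.1.1
      linarith
    · have h1 : (q : ℝ) ≤ N := by exact_mod_cast hq.1.2
      linarith
  · have h2 : ∑ p ∈ Q, Real.log p ≤ ∑ p ∈ Q, Real.log (8 * Y) := by
      apply Finset.sum_le_sum
      intro p hp
      rw [hQ, Finset.mem_filter, Finset.mem_Ioc] at hp
      apply Real.log_le_log (by exact_mod_cast hp.2.pos)
      have h1 : (p : ℝ) ≤ N := by exact_mod_cast hp.1.2
      linarith
    rw [Finset.sum_const, nsmul_eq_mul] at h2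
    have h3 : Real.log 4 * m ≤ 1.4 * Y := by
      have : (0 : ℝ) ≤ m := Nat.cast_nonneg _
      nlinarith
    linarith

end Pool.Agent.H436.RG
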