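import Mathlib

set_option autoImplicit false

/-! Covering arbitrary sets of positions by `k`-th powers of primes. -/

namespace Pool.Agent.H436.RG

open Filter Finset Topology

theorem dvd_of_modEq {m : ℕ} (hm : 0 < m) (i : ℤ) {n : ℕ}
    (h : n ≡ ((-i) % (m : ℤ)).toNat [MOD m]) : (m : ℤ) ∣ n + i := by
  have hm' : (0 : ℤ) < m := by exact_mod_cast hm
  have h1 : ((((-i) % (m : ℤ)).toNat : ℕ) : ℤ) = (-i) % (m : ℤ) :=
    Int.toNat_of_nonneg (Int.emod_nonneg _ hm'.ne')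
  have h2 := Nat.modEq_iff_dvd.1 h
  rw [h1] at h2
  have h3 : (m : ℤ) ∣ (-i) - (-i) % (m : ℤ) := by
    rw [Int.dvd_iff_emod_eq_zero]
    simp
  have h4 := dvd_add h2 h3
  rw [show (-i) % (m : ℤ) - (n : ℤ) + ((-i) - (-i) % (m : ℤ)) = -(n + i) by ring] at h4
  exact (dvd_neg).1 h4

theorem dvd_add_iff {D m a b : ℕ} (hD : m ∣ D) (h : a ≡ b [MOD D]) (i : ℤ) :
    (m : ℤ) ∣ a + i ↔ (m : ℤ) ∣ b + i := by
  have h1 : (m : ℤ) ∣ (b : ℤ) - a := Nat.modEq_iff_dvd.1 (h.of_dvd hD)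
  constructor
  · intro h2
    have := dvd_add h1 h2
    rwa [show (b : ℤ) - a + (a + i) = b + i by ring] at this
  · intro h2
    have := dvd_sub h2 h1
    rwa [show (b : ℤ) + i - (b - a) = a + i by ring] at this

/-- Residue classes modulo the `k`-th powers of the primes of `P` which leave few of the positions. -/
theorem greedy (k : ℕ) (P : Finset ℕ) (hP : ∀ p ∈ P, p.Prime) (I : Finset ℤ) : ∃ a : ℕ,
    ((I.filter (fun i => ∀ p ∈ P, ¬ (((p ^ k : ℕ) : ℤ) ∣ a + i))).card : ℝ) ≤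
      I.card * ∏ p ∈ P, (1 - 1 / (p : ℝ) ^ k) := by
  classical
  induction P using Finset.induction_on with
  | empty => exact ⟨0, by simp⟩
  | insert p P hpP ih =>
    obtain ⟨a₀, h0⟩ := ih (fun q hq => hP q (mem_insert_of_mem hq))
    have hp : p.Prime := hP p (mem_insert_self _ _)
    set U := I.filter (fun i => ∀ q ∈ P, ¬ (((q ^ k : ℕ) : ℤ) ∣ a₀ + i)) with hU
    set m := p ^ k with hm
    have hm0 : 0 < m := pow_pos hp.pos k
    have hmz : (0 : ℤ) < m := by exact_mod_cast hm0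
    have hmR : (0 : ℝ) < m := by exact_mod_cast hm0
    set g : ℤ → ℕ := fun i => ((-i) % (m : ℤ)).toNat with hg
    have hmaps : ∀ i ∈ U, g i ∈ range m := by
      intro i _
      rw [mem_range]
      have h1 := Int.emod_nonneg (-i) hmz.ne'
      have h2 := Int.emod_lt_of_pos (-i) hmz
      have h3 : ((g i : ℕ) : ℤ) < (m : ℤ) := by
        rw [hg]
        show ((((-i) % (m : ℤ)).toNat : ℕ) : ℤ) < (m : ℤ)
        rw [Int.toNat_of_nonneg h1]
        exact h2
      exact_mod_cast h3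
    obtain ⟨r, _, hr⟩ := Finset.exists_le_card_fiber_of_nsmul_le_card_of_maps_to (s := U)
      (t := range m) (f := g) (b := (U.card : ℝ) / m) hmaps (by simpa using hm0.ne') (by
        rw [card_range, nsmul_eq_mul]
        exact (mul_div_cancel₀ _ hmR.ne').le)
    have hco : Nat.Coprime (∏ q ∈ P, q ^ k) m := by
      refine Nat.Coprime.prod_left fun q hq => ?_
      refine Nat.Coprime.pow k k ?_
      refine (Nat.coprime_primes (hP q (mem_insert_of_mem hq)) hp).2 fun h => hpP (h ▸ hq)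
    obtain ⟨a, ha1, ha2⟩ := Nat.chineseRemainder hco a₀ r
    refine ⟨a, ?_⟩
    have hsub : I.filter (fun i => ∀ q ∈ insert p P, ¬ (((q ^ k : ℕ) : ℤ) ∣ a + i)) ⊆
        U.filter (fun i => ¬ g i = r) := by
      intro i hi
      rw [mem_filter] at hi
      rw [mem_filter, hU, mem_filter]
      refine ⟨⟨hi.1, fun q hq h => hi.2 q (mem_insert_of_mem hq) ?_⟩, fun h => ?_⟩
      · exact (dvd_add_iff (dvd_prod_of_mem _ hq) ha1 i).2 h
      · refine hi.2 p (mem_insert_self _ _) (dvd_of_modEq hm0 i ?_)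
        rw [← hg] at *
        exact ha2.trans (by rw [← h])
    have hcard := card_le_card hsub
    have hsplit := card_filter_add_card_filter_not (s := U) (fun i => g i = r)
    rw [prod_insert hpP]
    have h1 : ((I.filter (fun i => ∀ q ∈ insert p P, ¬ (((q ^ k : ℕ) : ℤ) ∣ a + i))).card : ℝ) ≤
        (U.filter (fun i => ¬ g i = r)).card := by exact_mod_cast hcard
    have h2 : ((U.filter (fun i => g i = r)).card : ℝ) + (U.filter (fun i => ¬ g i = r)).card =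
        U.card := by exact_mod_cast hsplit
    have h3 : (1 : ℝ) / (p : ℝ) ^ k = 1 / m := by rw [hm]; push_cast; rfl
    have h4 : (0 : ℝ) ≤ 1 - 1 / m := by
      have : (1 : ℝ) ≤ m := by exact_mod_cast hm0
      rw [sub_nonneg, div_le_one hmR]
      exact this
    calc ((I.filter (fun i => ∀ q ∈ insert p P, ¬ (((q ^ k : ℕ) : ℤ) ∣ a + i))).card : ℝ)
        ≤ U.card - U.card / m := by linarith
      _ = (1 - 1 / m) * U.card := by ring
      _ ≤ (1 - 1 / m) * (I.card * ∏ q ∈ P, (1 - 1 / (q : ℝ) ^ k)) :=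
          mul_le_mul_of_nonneg_left h0 h4
      _ = I.card * ((1 - 1 / (p : ℝ) ^ k) * ∏ q ∈ P, (1 - 1 / (q : ℝ) ^ k)) := by
          rw [h3]; ring

/-- The residue classes for the remaining positions. -/
theorem assemble (k : ℕ) (P : Finset ℕ) (hP : ∀ p ∈ P, p.Prime) (a₀ : ℕ) (U : Finset ℤ)
    (g : ℤ → ℕ) (hg : ∀ i ∈ U, (g i).Prime) (hinj : Set.InjOn g U) (hdis : ∀ i ∈ U, g i ∉ P) :
    Nat.Coprime (∏ p ∈ P, p ^ k) (∏ i ∈ U, (g i) ^ k) ∧ ∃ a : ℕ, ∀ n : ℕ,
      n ≡ a [MOD (∏ p ∈ P, p ^ k) * ∏ i ∈ U, (g i) ^ k] →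
        n ≡ a₀ [MOD ∏ p ∈ P, p ^ k] ∧ ∀ i ∈ U, (((g i) ^ k : ℕ) : ℤ) ∣ n + i := by
  classical
  have hco : Nat.Coprime (∏ p ∈ P, p ^ k) (∏ i ∈ U, (g i) ^ k) := by
    refine Nat.Coprime.prod_left fun q hq => Nat.Coprime.prod_right fun i hi => ?_
    refine Nat.Coprime.pow k k ?_
    exact (Nat.coprime_primes (hP q hq) (hg i hi)).2 fun h => hdis i hi (h ▸ hq)
  refine ⟨hco, ?_⟩
  obtain ⟨b, hb⟩ := Nat.chineseRemainderOfFinset
    (fun i : ℤ => ((-i) % (((g i) ^ k : ℕ) : ℤ)).toNat) (fun i => (g i) ^ k) U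
    (fun i hi => (pow_pos (hg i hi).pos k).ne') (by
      intro i hi j hj hij
      refine Nat.Coprime.pow k k ?_
      exact (Nat.coprime_primes (hg i hi) (hg j hj)).2 fun h => hij (hinj hi hj h))
  obtain ⟨a, ha1, ha2⟩ := Nat.chineseRemainder hco a₀ b
  refine ⟨a, fun n hn => ⟨?_, fun i hi => ?_⟩⟩
  · exact (hn.of_dvd (Dvd.intro _ rfl)).trans ha1
  · refine dvd_of_modEq (pow_pos (hg i hi).pos k) i ?_
    have h1 : n ≡ b [MOD ∏ i ∈ U, (g i) ^ k] := (hn.of_dvd (Dvd.intro_left _ rfl)).trans ha2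
    exact (h1.of_dvd (dvd_prod_of_mem _ hi)).trans (hb i hi)

/-- Finitely many primes suffice. -/
theorem exists_P (k : ℕ) (hk : 2 ≤ k) (c e : ℝ)
    (h : c < e * ∑' n : ℕ, 1 / ((n : ℝ) + 1) ^ k) :
    ∃ P : Finset ℕ, (∀ p ∈ P, p.Prime) ∧ c * ∏ p ∈ P, (1 - 1 / (p : ℝ) ^ k) < e := by
  let f : ℕ →*₀ ℝ :=
    { toFun := fun n => 1 / (n : ℝ) ^ k
      map_zero' := by simp [show k ≠ 0 by omega]
      map_one' := by simp
      map_mul' := fun a b => by push_cast; rw [mul_pow]; field_simp }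
  have hf : ∀ n : ℕ, f n = 1 / (n : ℝ) ^ k := fun n => rfl
  have hs : Summable (fun n : ℕ => 1 / (n : ℝ) ^ k) := Real.summable_one_div_nat_pow.2 (by omega)
  have hs' : Summable (fun n : ℕ => ‖f n‖) := by
    refine hs.congr fun n => ?_
    rw [hf, Real.norm_of_nonneg (by positivity)]
  have ht := EulerProduct.eulerProduct_completely_multiplicative hs'
  have hz : ∑' n : ℕ, f n = ∑' n : ℕ, 1 / ((n : ℝ) + 1) ^ k := by
    have h1 : ∑' n : ℕ, f n = ∑' n : ℕ, 1 / (n : ℝ) ^ k := rfl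
    rw [h1, hs.tsum_eq_zero_add]
    simp [show k ≠ 0 by omega]
  rw [hz] at ht
  have h2 := (ht.const_mul e).eventually (lt_mem_nhds h)
  obtain ⟨N, hN⟩ := h2.exists
  refine ⟨Nat.primesBelow N, fun p hp => Nat.prime_of_mem_primesBelow hp, ?_⟩
  have hpos : ∀ p ∈ Nat.primesBelow N, 0 < 1 - f p := by
    intro p hp
    have hp2 : (2 : ℝ) ≤ p := by exact_mod_cast (Nat.prime_of_mem_primesBelow hp).two_le
    rw [hf, sub_pos, div_lt_one (by positivity)]
    exact one_lt_pow₀ (by linarith) (by omega)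
  have hprod : 0 < ∏ p ∈ Nat.primesBelow N, (1 - f p) := Finset.prod_pos hpos
  rw [Finset.prod_inv_distrib, ← div_eq_mul_inv, lt_div_iff₀ hprod] at hN
  exact hN

end Pool.Agent.H436.RG
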