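import Pool.Agent.Results.MP_3bc45c_nt.RecordGapsAtPrescribedPlaces
import Pool.Agent.H436.RG.Ana
import Pool.Agent.H436.RG.Cover

set_option autoImplicit false

/-! Record gaps between primes around integers `n` at which arbitrary linear forms are divisible by prescribed powers of
different primes. -/

namespace Pool.Agent.H436.RG

open Filter Finset Topology

/-- the number of the primes of `Q` which divide `a` -/
theorem card_dvd (Q : Finset ℕ) (L B : ℝ) (hL : 1 < L) (hQ : ∀ q ∈ Q, q.Prime ∧ L < q) (a : ℤ)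
    (ha : a ≠ 0) (haB : Real.log |(a : ℝ)| ≤ B) :
    ((Q.filter (fun q : ℕ => (q : ℤ) ∣ a)).card : ℝ) * Real.log L ≤ B := by
  set S := Q.filter (fun q : ℕ => (q : ℤ) ∣ a) with hS
  have hSp : ∀ q ∈ S, q.Prime ∧ L < q ∧ q ∣ a.natAbs := by
    intro q hq
    rw [hS, Finset.mem_filter] at hq
    exact ⟨(hQ q hq.1).1, (hQ q hq.1).2, Int.natCast_dvd.1 hq.2⟩
  have h1 : ∏ q ∈ S, q ∣ a.natAbs :=
    Finset.prod_primes_dvd _ (fun q hq => Nat.Prime.prime (hSp q hq).1) (fun q hq => (hSp q hq).2.2)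
  have h2 : ((∏ q ∈ S, q : ℕ) : ℝ) ≤ |(a : ℝ)| := by
    have h3 : ∏ q ∈ S, q ≤ a.natAbs := Nat.le_of_dvd (Int.natAbs_pos.2 ha) h1
    have h4 : ((∏ q ∈ S, q : ℕ) : ℝ) ≤ (a.natAbs : ℝ) := by exact_mod_cast h3
    rwa [Nat.cast_natAbs, Int.cast_abs] at h4
  have h5 : (S.card : ℝ) * Real.log L ≤ Real.log ((∏ q ∈ S, q : ℕ) : ℝ) := by
    push_cast
    rw [Real.log_prod (fun q hq => by
      have := (hSp q hq).1.pos
      positivity), ← nsmul_eq_mul, ← Finset.sum_const]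
    exact Finset.sum_le_sum fun q hq => Real.log_le_log (by linarith) (hSp q hq).2.1.le
  have h6 : (0 : ℝ) < ((∏ q ∈ S, q : ℕ) : ℝ) := by
    exact_mod_cast Finset.prod_pos fun q hq => (hSp q hq).1.pos
  exact h5.trans ((Real.log_le_log h6 h2).trans haB)

/-- an injective choice of primes -/
theorem choose {ι : Type} [DecidableEq ι] (T : Finset ι) (Q : Finset ℕ) (bad : ι → ℕ → Prop)
    [∀ t, DecidablePred (bad t)]
    (h : ∀ t ∈ T, T.card ≤ (Q.filter (fun q => ¬ bad t q)).card) :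
    ∃ g : ι → ℕ, Set.InjOn g T ∧ ∀ t ∈ T, g t ∈ Q ∧ ¬ bad t (g t) := by
  classical
  obtain ⟨f, hf1, hf2⟩ := (Finset.all_card_le_biUnion_card_iff_exists_injective
    (fun t : {t // t ∈ T} => Q.filter (fun q => ¬ bad t.1 q))).1 (by
      intro s
      rcases s.eq_empty_or_nonempty with rfl | ⟨x, hx⟩
      · simp
      · have h1 : s.card ≤ T.card := by
          have := Finset.card_le_univ s
          simpa using this
        exact h1.trans ((h x.1 x.2).trans (Finset.card_le_card (Finset.subset_biUnion_of_mem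
          (fun t : {t // t ∈ T} => Q.filter (fun q => ¬ bad t.1 q)) hx))))
  refine ⟨fun t => if ht : t ∈ T then f ⟨t, ht⟩ else 0, ?_, ?_⟩
  · intro x hx y hy hxy
    have hx' : x ∈ T := hx
    have hy' : y ∈ T := hy
    simp only [dif_pos hx', dif_pos hy'] at hxy
    exact congrArg Subtype.val (hf1 hxy)
  · intro t ht
    simp only [dif_pos ht]
    have := hf2 ⟨t, ht⟩
    rw [Finset.mem_filter] at this
    exact this

/-- the residue class for the linear forms -/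
theorem class_forms (T : Finset (ℤ × ℤ × ℕ)) (g : ℤ × ℤ × ℕ → ℕ) (hg : ∀ t ∈ T, (g t).Prime)
    (hinj : Set.InjOn g T) (hd : ∀ t ∈ T, ¬ ((g t : ℤ) ∣ t.1)) :
    ∃ a : ℕ, ∀ n : ℕ, n ≡ a [MOD ∏ t ∈ T, (g t) ^ t.2.2] →
      ∀ t ∈ T, (g t : ℤ) ^ t.2.2 ∣ t.1 * n + t.2.1 := by
  classical
  have hr : ∀ t : ℤ × ℤ × ℕ, ∃ r : ℤ, t ∈ T → (g t : ℤ) ^ t.2.2 ∣ t.1 * r + t.2.1 := by
    intro t
    by_cases ht : t ∈ T
    · have hco : IsCoprime t.1 ((g t : ℤ) ^ t.2.2) := by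
        refine IsCoprime.pow_right (IsCoprime.symm ?_)
        exact (Nat.prime_iff_prime_int.1 (hg t ht)).coprime_iff_not_dvd.2 (hd t ht)
      obtain ⟨u, v, huv⟩ := hco
      refine ⟨-(t.2.1 * u), fun _ => ⟨t.2.1 * v, ?_⟩⟩
      linear_combination (-t.2.1) * huv
    · exact ⟨0, fun h => absurd h ht⟩
  choose r hr using hr
  obtain ⟨a, ha⟩ := Nat.chineseRemainderOfFinset
    (fun t : ℤ × ℤ × ℕ => ((- -r t) % (((g t) ^ t.2.2 : ℕ) : ℤ)).toNat)
    (fun t => (g t) ^ t.2.2) T (fun t ht => (pow_pos (hg t ht).pos _).ne') (by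
      intro s hs t ht hst
      refine Nat.Coprime.pow _ _ ?_
      exact (Nat.coprime_primes (hg s hs) (hg t ht)).2 fun h => hst (hinj hs ht h))
  refine ⟨a, fun n hn t ht => ?_⟩
  have h1 := dvd_of_modEq (pow_pos (hg t ht).pos t.2.2) (-r t)
    ((hn.of_dvd (dvd_prod_of_mem (fun t => (g t) ^ t.2.2) ht)).trans (ha t ht))
  push_cast at h1
  have h2 := dvd_add (dvd_mul_of_dvd_right h1 t.1) (hr t ht)
  rwa [show t.1 * ((n : ℤ) + -r t) + (t.1 * r t + t.2.1) = t.1 * n + t.2.1 by ring] at h2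

theorem forms (A ε c : ℝ) (hA : 0 ≤ A) (hε : 0 < ε) (hε1 : ε ≤ 1) (hc : c < ε) :
    ∃ κ : ℝ, 0 < κ ∧ ∃ M₀ : ℕ, ∀ M : ℕ, M₀ ≤ M → ∀ T : Finset (ℤ × ℤ × ℕ),
      (∀ t ∈ T, t.1 ≠ 0 ∧ |(t.1 : ℝ)| ≤ (M : ℝ) ^ A ∧ 1 ≤ t.2.2) →
      ((∑ t ∈ T, t.2.2 : ℕ) : ℝ) ≤ c * (Real.log M / Real.log (Real.log M)) →
      ∃ n : ℕ, M < n ∧ (n : ℝ) ≤ M + (M : ℝ) ^ ε ∧
      (∃ q : ℤ × ℤ × ℕ → ℕ, Set.InjOn q T ∧ ∀ t ∈ T, (q t).Prime ∧ Real.log M < q t ∧
        (q t : ℤ) ^ t.2.2 ∣ t.1 * n + t.2.1) ∧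
      ∀ p : ℕ, p.Prime → κ * F (Real.log M) < |(p : ℝ) - n| := by
  classical
  set ρ := max c (ε / 2) with hρ
  have hρ1 : ρ < ε := max_lt hc (by linarith)
  have hρ2 : ε / 2 ≤ ρ := le_max_right _ _
  have hρ3 : c ≤ ρ := le_max_left _ _
  have hρ0 : 0 < ρ := by linarith
  set δ := (ε - ρ) / (4 * ε) with hδ
  have hδ0 : 0 < δ := div_pos (by linarith) (by linarith)
  have hδ1 : δ < 1 := by
    rw [hδ, div_lt_one (by linarith)]; linarith
  have hδε : δ * ε = (ε - ρ) / 4 := by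
    rw [hδ]; field_simp
  obtain ⟨c₀, hc₀, x₀, hbb⟩ := Pool.Agent.Results.MP_3bc45c_nt.RecordGapsAtPrescribedPlaces.result
    δ 1 hδ0 hδ1 zero_le_one
  obtain ⟨R, hR⟩ := F_scale ε hε
  obtain ⟨Y₀, hY₀⟩ := primes_in
  have hcast : Tendsto (fun M : ℕ => (M : ℝ)) atTop atTop := tendsto_natCast_atTop_atTop
  have hlogM : Tendsto (fun M : ℕ => Real.log (M : ℝ)) atTop atTop :=
    Real.tendsto_log_atTop.comp hcast
  have hllM : Tendsto (fun M : ℕ => Real.log (Real.log (M : ℝ))) atTop atTop :=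
    Real.tendsto_log_atTop.comp hlogM
  have hxM : Tendsto (fun M : ℕ => (M : ℝ) ^ ε) atTop atTop := (tendsto_rpow_atTop hε).comp hcast
  set C : ℝ := 2 * (A + 1) with hC
  have hC2 : 2 ≤ C := by rw [hC]; linarith
  set a8 : ℝ := Real.log (8 * C) with ha8
  have ha80 : 0 < a8 := Real.log_pos (by linarith)
  obtain ⟨M₀, hM₀⟩ := eventually_atTop.1 ((((hxM.eventually_ge_atTop x₀).and
    (hlogM.eventually_ge_atTop (max (max R Y₀) 2))).and
      (hllM.eventually_ge_atTop (max (max a8 (4 * (ρ * a8) / (ε - ρ))) (1 + |Real.log ε|)))).and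
        (eventually_ge_atTop 2))
  refine ⟨c₀ * (Real.exp (-2) * (ε / 8)), by positivity, M₀, fun M hM T hT hTk => ?_⟩
  obtain ⟨⟨⟨b1, b2⟩, b3⟩, b5⟩ := hM₀ M hM
  have hM2 : (2 : ℝ) ≤ M := by exact_mod_cast b5
  have hM0 : (0 : ℝ) < M := by linarith
  set x : ℝ := (M : ℝ) ^ ε with hx
  set L := Real.log (M : ℝ) with hL
  set l := Real.log L with hl
  have hLR : R ≤ L := ((le_max_left _ _).trans (le_max_left _ _)).trans b2
  have hLY : Y₀ ≤ L := ((le_max_right _ _).trans (le_max_left _ _)).trans b2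
  have hL2 : 2 ≤ L := (le_max_right _ _).trans b2
  have hl8 : a8 ≤ l := ((le_max_left _ _).trans (le_max_left _ _)).trans b3
  have hlρ : 4 * (ρ * a8) / (ε - ρ) ≤ l := ((le_max_right _ _).trans (le_max_left _ _)).trans b3
  have hlε : 1 + |Real.log ε| ≤ l := (le_max_right _ _).trans b3
  have hL0 : 0 < L := by linarith
  have hl0 : 0 < l := by linarith
  have hερ : 0 < ε - ρ := by linarith
  rw [div_le_iff₀ hερ] at hlρ
  have hlx : Real.log x = ε * L := by rw [hx, Real.log_rpow hM0]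
  have hllx : Real.log (Real.log x) = Real.log ε + l := by
    rw [hlx, Real.log_mul hε.ne' hL0.ne']
  have hlogε : Real.log ε ≤ 0 := Real.log_nonpos hε.le hε1
  have hllx1 : 1 ≤ Real.log (Real.log x) := by
    rw [hllx]
    have := neg_abs_le (Real.log ε)
    linarith
  have hllxl : Real.log (Real.log x) ≤ l := by rw [hllx]; linarith
  have hLl0 : 0 < L / l := div_pos hL0 hl0
  have hKρ : ((∑ t ∈ T, t.2.2 : ℕ) : ℝ) ≤ ρ * (L / l) :=
    hTk.trans (mul_le_mul_of_nonneg_right hρ3 hLl0.le)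
  have hTcard : (T.card : ℝ) ≤ L / l := by
    have h1 : T.card ≤ ∑ t ∈ T, t.2.2 := by
      rw [Finset.card_eq_sum_ones]
      exact Finset.sum_le_sum fun t ht => (hT t ht).2.2
    have h2 : (T.card : ℝ) ≤ ((∑ t ∈ T, t.2.2 : ℕ) : ℝ) := by exact_mod_cast h1
    have h3 : ρ * (L / l) ≤ 1 * (L / l) := mul_le_mul_of_nonneg_right (by linarith) hLl0.le
    linarith
  -- the primes
  have hCL : L ≤ C * L := by nlinarith
  obtain ⟨Q, hQ1, hQ2⟩ := hY₀ (C * L) (hLY.trans hCL)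
  have hlog8 : Real.log (8 * (C * L)) = a8 + l := by
    rw [← mul_assoc, Real.log_mul (by linarith) hL0.ne']
  rw [hlog8] at hQ2
  have hQcard : (A + 1) * (L / l) ≤ Q.card := by
    have h1 : (Q.card : ℝ) * (a8 + l) ≤ Q.card * (2 * l) :=
      mul_le_mul_of_nonneg_left (by linarith) (Nat.cast_nonneg _)
    have h2 : (A + 1) * L ≤ Q.card * l := by
      have h3 : C * L = 2 * ((A + 1) * L) := by rw [hC]; ring
      linarith
    rw [← mul_div_assoc, div_le_iff₀ hl0]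
    exact h2
  have hchoice : ∀ t ∈ T, T.card ≤ (Q.filter (fun q : ℕ => ¬ ((q : ℤ) ∣ t.1))).card := by
    intro t ht
    have h1 := card_dvd Q L (A * L) (by linarith)
      (fun q hq => ⟨(hQ1 q hq).1, lt_of_le_of_lt hCL (hQ1 q hq).2.1⟩) t.1 (hT t ht).1 (by
        have h2 : (0 : ℝ) < |(t.1 : ℝ)| := abs_pos.2 (by exact_mod_cast (hT t ht).1)
        have h3 := Real.log_le_log h2 (hT t ht).2.1
        rwa [Real.log_rpow hM0] at h3)
    have h4 := card_filter_add_card_filter_not (s := Q) (fun q : ℕ => (q : ℤ) ∣ t.1)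
    have h5 : ((Q.filter (fun q : ℕ => (q : ℤ) ∣ t.1)).card : ℝ) +
        (Q.filter (fun q : ℕ => ¬ ((q : ℤ) ∣ t.1))).card = Q.card := by exact_mod_cast h4
    have h6 : ((Q.filter (fun q : ℕ => (q : ℤ) ∣ t.1)).card : ℝ) ≤ A * (L / l) := by
      rw [← mul_div_assoc, le_div_iff₀ hl0]
      exact h1
    have h7 : (T.card : ℝ) ≤ (Q.filter (fun q : ℕ => ¬ ((q : ℤ) ∣ t.1))).card := by
      have h8 : (A + 1) * (L / l) = A * (L / l) + L / l := by ring
      linarith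
    exact_mod_cast h7
  obtain ⟨g, hginj, hg⟩ := choose T Q (fun t q => (q : ℤ) ∣ t.1) hchoice
  have hgp : ∀ t ∈ T, (g t).Prime := fun t h => (hQ1 _ (hg t h).1).1
  have hgL : ∀ t ∈ T, L < g t := fun t h => lt_of_le_of_lt hCL (hQ1 _ (hg t h).1).2.1
  have hg8 : ∀ t ∈ T, (g t : ℝ) ≤ 8 * (C * L) := fun t h => (hQ1 _ (hg t h).1).2.2
  obtain ⟨a, ha⟩ := class_forms T g hgp hginj (fun t ht => (hg t ht).2)
  set E := ∏ t ∈ T, (g t) ^ t.2.2 with hE
  have hE0 : 0 < E := Finset.prod_pos fun t ht => pow_pos (hgp t ht).pos _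
  have hER : (0 : ℝ) < E := by exact_mod_cast hE0
  -- sums over the primes
  have hsumU : ∑ t ∈ T, 1 / (g t : ℝ) ≤ T.card / L := by
    rw [div_eq_mul_one_div, ← nsmul_eq_mul, ← Finset.sum_const]
    exact Finset.sum_le_sum fun t ht => one_div_le_one_div_of_le hL0 (hgL t ht).le
  have hsumim : ∑ p ∈ T.image g, 1 / (p : ℝ) ≤ T.card / L := by
    rw [Finset.sum_image hginj]; exact hsumU
  have hUL : (T.card : ℝ) / L ≤ 1 / l := by
    rw [div_le_div_iff₀ hL0 hl0]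
    have h1 := hTcard
    rw [le_div_iff₀ hl0] at h1
    linarith
  have hpE : ∀ p : ℕ, p.Prime → p ∣ E → p ∈ T.image g := by
    intro p hp hpd
    obtain ⟨t, ht, h⟩ := (Nat.Prime.prime hp).exists_mem_finset_dvd hpd
    rw [Finset.mem_image]
    exact ⟨t, ht, ((Nat.prime_dvd_prime_iff_eq hp (hgp t ht)).1 (hp.dvd_of_dvd_pow h)).symm⟩
  -- the size of the modulus
  have hsize : (E : ℝ) ≤ x ^ (1 - δ) := by
    rw [← Real.log_le_log_iff hER (by positivity), Real.log_rpow (by positivity), hlx]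
    have h1 : Real.log E ≤ ((∑ t ∈ T, t.2.2 : ℕ) : ℝ) * (a8 + l) := by
      have h2 : Real.log (E : ℝ) = ∑ t ∈ T, (t.2.2 : ℝ) * Real.log (g t) := by
        rw [hE]
        push_cast
        rw [Real.log_prod (fun t ht => by
          have := (hgp t ht).pos
          positivity)]
        refine Finset.sum_congr rfl fun t _ => ?_
        rw [Real.log_pow]
      rw [h2]
      push_cast
      rw [Finset.sum_mul]
      refine Finset.sum_le_sum fun t ht => mul_le_mul_of_nonneg_left ?_ (Nat.cast_nonneg _)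
      rw [← hlog8]
      exact Real.log_le_log (by exact_mod_cast (hgp t ht).pos) (hg8 t ht)
    have h2 : ((∑ t ∈ T, t.2.2 : ℕ) : ℝ) * (a8 + l) ≤ ρ * (L / l) * (a8 + l) :=
      mul_le_mul_of_nonneg_right hKρ (by linarith)
    have h3 : ρ * (L / l) * (a8 + l) = ρ * L + (ρ * a8) * (L / l) := by
      field_simp
      ring
    have h4 : (ρ * a8) * (L / l) ≤ (ε - ρ) / 4 * L := by
      have h5 : ρ * a8 ≤ (ε - ρ) / 4 * l := by linarith
      calc (ρ * a8) * (L / l) ≤ ((ε - ρ) / 4 * l) * (L / l) :=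
            mul_le_mul_of_nonneg_right h5 hLl0.le
        _ = (ε - ρ) / 4 * L := by field_simp
    have h6 : (1 - δ) * (ε * L) = ε * L - (ε - ρ) / 4 * L := by
      rw [← hδε]; ring
    rw [h6]
    have h7 : 0 ≤ (ε - ρ) * L := mul_nonneg hερ.le hL0.le
    linarith
  have hcond : (∑ p ∈ E.primeFactors with
      Real.exp (Real.log (Real.log x) * Real.log (Real.log (Real.log (Real.log x))) /
        (20 * Real.log (Real.log (Real.log x)))) < ((p : ℕ) : ℝ), 1 / ((p : ℕ) : ℝ)) ≤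
      1 / Real.log (Real.log x) := by
    refine (Finset.sum_le_sum_of_subset_of_nonneg (t := T.image g) ?_
      (fun _ _ _ => by positivity)).trans (hsumim.trans (hUL.trans ?_))
    · intro p hp
      rw [Finset.mem_filter, Nat.mem_primeFactors] at hp
      exact hpE p hp.1.1 hp.1.2.1
    · exact one_div_le_one_div_of_le (by linarith) hllxl
  obtain ⟨n, hn1, hn2, hn3, hn4⟩ := hbb x b1 E hE0 hsize hcond a M
  refine ⟨n, hn2, hn3, ⟨g, hginj, fun t ht => ⟨hgp t ht, hgL t ht, ha n hn1 t ht⟩⟩, ?_⟩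
  intro p hp
  refine lt_of_le_of_lt ?_ (hn4 p hp)
  have htot : Real.exp (-2) ≤ (Nat.totient E : ℝ) / E := by
    refine le_trans (Real.exp_le_exp.2 ?_) (tot_exp E hE0.ne')
    have h3 : ∑ p ∈ E.primeFactors, 1 / (p : ℝ) ≤ 1 := by
      refine (Finset.sum_le_sum_of_subset_of_nonneg (t := T.image g) ?_
        (fun _ _ _ => by positivity)).trans (hsumim.trans (hUL.trans ?_))
      · intro p hp
        rw [Nat.mem_primeFactors] at hp
        exact hpE p hp.1 hp.2.1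
      · have habs := abs_nonneg (Real.log ε)
        rw [div_le_one hl0]; linarith
    linarith
  obtain ⟨hF1, hF2⟩ := hR L hLR (Real.log x) hlx.ge (by
    rw [hlx]
    calc ε * L ≤ 1 * L := mul_le_mul_of_nonneg_right hε1 hL0.le
      _ = L := one_mul L)
  have h3 : F (Real.log x) = Real.log x * (Real.log (Real.log x)) ^ 2 *
        Real.log (Real.log (Real.log (Real.log x))) / (Real.log (Real.log (Real.log x))) ^ 2 := rfl
  rw [← h3]
  calc c₀ * (Real.exp (-2) * (ε / 8)) * F L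
      = c₀ * (Real.exp (-2) * (ε / 8 * F L)) := by ring
    _ ≤ c₀ * ((Nat.totient E : ℝ) / E * F (Real.log x)) := by
        apply mul_le_mul_of_nonneg_left _ hc₀.le
        exact mul_le_mul htot hF2 (by positivity) (by positivity)

end Pool.Agent.H436.RG
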