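import Pool.Agent.Results.MP_3bc45c_nt.RecordGapsAtPrescribedPlaces
import Pool.Agent.H436.RG.Ana
import Pool.Agent.H436.RG.Cover

set_option autoImplicit false

/-! Record gaps between primes around integers `n` such that no `n + i`, `i` in an arbitrary set of almost
`ε ζ(k) / k * log M / log log M` integers, is `k`-free. -/

namespace Pool.Agent.H436.RG

open Filter Finset Topology

theorem main (k : ℕ) (hk : 2 ≤ k) (ε c : ℝ) (hε : 0 < ε) (hε1 : ε ≤ 1)
    (hc : c < ε / k * ∑' n : ℕ, 1 / ((n : ℝ) + 1) ^ k) :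
    ∃ κ : ℝ, 0 < κ ∧ ∃ M₀ : ℕ, ∀ M : ℕ, M₀ ≤ M → ∀ I : Finset ℤ,
      (I.card : ℝ) ≤ c * (Real.log M / Real.log (Real.log M)) → ∃ n : ℕ, M < n ∧
      (n : ℝ) ≤ M + (M : ℝ) ^ ε ∧
      (∀ i ∈ I, ∃ q : ℕ, q.Prime ∧ ((q ^ k : ℕ) : ℤ) ∣ n + i) ∧
      ∀ p : ℕ, p.Prime → κ * F (Real.log M) < |(p : ℝ) - n| := by
  classical
  have hk2 : (2 : ℝ) ≤ k := by exact_mod_cast hk
  have hk0 : (0 : ℝ) < k := by linarith
  obtain ⟨P, hP, hcP⟩ := exists_P k hk c (ε / k) hc
  set Q₀ := ∏ p ∈ P, (1 - 1 / (p : ℝ) ^ k) with hQ₀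
  have hQ₀0 : 0 ≤ Q₀ := by
    refine Finset.prod_nonneg fun p hp => ?_
    have hp1 : (1 : ℝ) ≤ p := by exact_mod_cast (hP p hp).one_lt.le
    rw [sub_nonneg, div_le_one (by positivity)]
    exact one_le_pow₀ hp1
  set D₀ := ∏ p ∈ P, p ^ k with hD₀
  have hD₀0 : 0 < D₀ := Finset.prod_pos fun p hp => pow_pos (hP p hp).pos k
  have hD₀R : (1 : ℝ) ≤ D₀ := by exact_mod_cast hD₀0
  set ρ := max (k * (c * Q₀)) (ε / 2) with hρ
  have hρ1 : ρ < ε := by
    refine max_lt ?_ (by linarith)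
    rw [lt_div_iff₀ hk0] at hcP
    linarith
  have hρ2 : ε / 2 ≤ ρ := le_max_right _ _
  have hρ3 : k * (c * Q₀) ≤ ρ := le_max_left _ _
  have hρ0 : 0 < ρ := by linarith
  set δ := (ε - ρ) / (4 * ε) with hδ
  have hδ0 : 0 < δ := div_pos (by linarith) (by linarith)
  have hδ1 : δ < 1 := by
    rw [hδ, div_lt_one (by linarith)]; linarith
  have hδε : δ * ε = (ε - ρ) / 4 := by
    rw [hδ]; field_simp
  obtain ⟨c₀, hc₀, x₀, hbb⟩ := Pool.Agent.Results.MP_3bc45c_nt.RecordGapsAtPrescribedPlaces.result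
    δ 1 hδ0 hδ1 zero_le_one
  obtain ⟨R, hR⟩ := F_scale ε hε
  obtain ⟨Y₀, hY₀⟩ := primes_in
  set B := ∑ p ∈ P, (p : ℝ) with hB
  have hPB : ∀ p ∈ P, (p : ℝ) ≤ B := fun p hp =>
    Finset.single_le_sum (f := fun p : ℕ => (p : ℝ)) (fun _ _ => Nat.cast_nonneg _) hp
  have hcast : Tendsto (fun M : ℕ => (M : ℝ)) atTop atTop := tendsto_natCast_atTop_atTop
  have hlogM : Tendsto (fun M : ℕ => Real.log (M : ℝ)) atTop atTop :=
    Real.tendsto_log_atTop.comp hcast
  have hllM : Tendsto (fun M : ℕ => Real.log (Real.log (M : ℝ))) atTop atTop :=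
    Real.tendsto_log_atTop.comp hlogM
  have hxM : Tendsto (fun M : ℕ => (M : ℝ) ^ ε) atTop atTop := (tendsto_rpow_atTop hε).comp hcast
  set a8 : ℝ := Real.log 8 with ha8
  have ha80 : 0 < a8 := Real.log_pos (by norm_num)
  obtain ⟨M₀, hM₀⟩ := eventually_atTop.1 (((((hxM.eventually_ge_atTop x₀).and
    (hlogM.eventually_ge_atTop (max (max R Y₀) (max (max B 1) (4 * Real.log D₀ / (ε - ρ)))))).and
      (hllM.eventually_ge_atTop (max (max a8 (4 * (ρ * a8) / (ε - ρ))) (1 + |Real.log ε|)))).and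
        (hxM.eventually (thr_large B))).and (eventually_ge_atTop 2))
  refine ⟨c₀ * (1 / D₀ * Real.exp (-2) * (ε / 8)), by positivity, M₀, fun M hM I hI => ?_⟩
  obtain ⟨⟨⟨⟨b1, b2⟩, b3⟩, b4⟩, b5⟩ := hM₀ M hM
  have hM2 : (2 : ℝ) ≤ M := by exact_mod_cast b5
  have hM0 : (0 : ℝ) < M := by linarith
  set x : ℝ := (M : ℝ) ^ ε with hx
  set L := Real.log (M : ℝ) with hL
  set l := Real.log L with hl
  have hLR : R ≤ L := ((le_max_left _ _).trans (le_max_left _ _)).trans b2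
  have hLY : Y₀ ≤ L := ((le_max_right _ _).trans (le_max_left _ _)).trans b2
  have hLB : B ≤ L :=
    (((le_max_left _ _).trans (le_max_left _ _)).trans (le_max_right _ _)).trans b2
  have hL1 : 1 ≤ L :=
    (((le_max_right _ _).trans (le_max_left _ _)).trans (le_max_right _ _)).trans b2
  have hLD : 4 * Real.log D₀ / (ε - ρ) ≤ L := ((le_max_right _ _).trans (le_max_right _ _)).trans b2
  have hl8 : a8 ≤ l := ((le_max_left _ _).trans (le_max_left _ _)).trans b3
  have hlρ : 4 * (ρ * a8) / (ε - ρ) ≤ l := ((le_max_right _ _).trans (le_max_left _ _)).trans b3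
  have hlε : 1 + |Real.log ε| ≤ l := (le_max_right _ _).trans b3
  have hL0 : 0 < L := by linarith
  have hl0 : 0 < l := by linarith
  have hερ : 0 < ε - ρ := by linarith
  rw [div_le_iff₀ hερ] at hLD hlρ
  have hlx : Real.log x = ε * L := by rw [hx, Real.log_rpow hM0]
  have hllx : Real.log (Real.log x) = Real.log ε + l := by
    rw [hlx, Real.log_mul hε.ne' hL0.ne']
  have hlogε : Real.log ε ≤ 0 := Real.log_nonpos hε.le hε1
  have hllx1 : 1 ≤ Real.log (Real.log x) := by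
    rw [hllx]
    have := neg_abs_le (Real.log ε)
    linarith
  have hllxl : Real.log (Real.log x) ≤ l := by rw [hllx]; linarith
  have hLl0 : 0 < L / l := div_pos hL0 hl0
  -- the positions left by the small primes
  obtain ⟨a₀, ha₀⟩ := greedy k P hP I
  set U := I.filter (fun i => ∀ p ∈ P, ¬ (((p ^ k : ℕ) : ℤ) ∣ a₀ + i)) with hU
  have hUk : k * (U.card : ℝ) ≤ ρ * (L / l) := by
    have h1 : (U.card : ℝ) ≤ c * (L / l) * Q₀ :=
      ha₀.trans (mul_le_mul_of_nonneg_right hI hQ₀0)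
    calc k * (U.card : ℝ) ≤ k * (c * (L / l) * Q₀) := mul_le_mul_of_nonneg_left h1 hk0.le
      _ = k * (c * Q₀) * (L / l) := by ring
      _ ≤ ρ * (L / l) := mul_le_mul_of_nonneg_right hρ3 hLl0.le
  have hUcard : 2 * (U.card : ℝ) ≤ L / l := by
    have h1 : 2 * (U.card : ℝ) ≤ k * (U.card : ℝ) :=
      mul_le_mul_of_nonneg_right hk2 (Nat.cast_nonneg _)
    have h2 : ρ * (L / l) ≤ 1 * (L / l) := mul_le_mul_of_nonneg_right (by linarith) hLl0.le
    linarith
  have hlog8L : Real.log (8 * L) = a8 + l := by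
    rw [Real.log_mul (by norm_num) hL0.ne']
  -- primes for them
  obtain ⟨Q, hQ1, hQ2⟩ := hY₀ L hLY
  rw [hlog8L] at hQ2
  have hcard : U.card ≤ Q.card := by
    have h1 : (Q.card : ℝ) * (a8 + l) ≤ Q.card * (2 * l) :=
      mul_le_mul_of_nonneg_left (by linarith) (Nat.cast_nonneg _)
    have h2 : L / l ≤ 2 * (Q.card : ℝ) := by
      rw [div_le_iff₀ hl0]; linarith
    have h3 : (U.card : ℝ) ≤ Q.card := by linarith
    exact_mod_cast h3
  obtain ⟨e⟩ : Nonempty ({i // i ∈ U} ↪ {q // q ∈ Q}) :=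
    Function.Embedding.nonempty_of_card_le (by simpa using hcard)
  set g : ℤ → ℕ := fun i => if h : i ∈ U then ((e ⟨i, h⟩ : {q // q ∈ Q}) : ℕ) else 0 with hg
  have hgv : ∀ i (h : i ∈ U), g i = ((e ⟨i, h⟩ : {q // q ∈ Q}) : ℕ) := fun i h => by
    rw [hg]; exact dif_pos h
  have hgQ : ∀ i ∈ U, g i ∈ Q := fun i h => by
    rw [hgv i h]; exact (e ⟨i, h⟩).2
  have hginj : Set.InjOn g U := by
    intro i hi j hj hij
    rw [hgv i hi, hgv j hj] at hij
    have h1 := e.injective (Subtype.ext hij)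
    exact congrArg Subtype.val h1
  have hgp : ∀ i ∈ U, (g i).Prime := fun i h => (hQ1 _ (hgQ i h)).1
  have hgL : ∀ i ∈ U, L < g i := fun i h => (hQ1 _ (hgQ i h)).2.1
  have hg8 : ∀ i ∈ U, (g i : ℝ) ≤ 8 * L := fun i h => (hQ1 _ (hgQ i h)).2.2
  have hgP : ∀ i ∈ U, g i ∉ P := fun i h hP' => by
    have h1 := hPB _ hP'
    have h2 := hgL i h
    linarith
  obtain ⟨hco, a, ha⟩ := assemble k P hP a₀ U g hgp hginj hgP
  rw [← hD₀] at hco ha
  set E := ∏ i ∈ U, (g i) ^ k with hE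
  have hE0 : 0 < E := Finset.prod_pos fun i hi => pow_pos (hgp i hi).pos k
  -- sums over the primes
  have hsumU : ∑ i ∈ U, 1 / (g i : ℝ) ≤ U.card / L := by
    rw [div_eq_mul_one_div, ← nsmul_eq_mul, ← Finset.sum_const]
    refine Finset.sum_le_sum fun i hi => ?_
    exact one_div_le_one_div_of_le hL0 (hgL i hi).le
  have hsumim : ∑ p ∈ U.image g, 1 / (p : ℝ) ≤ U.card / L := by
    rw [Finset.sum_image hginj]; exact hsumU
  have hUL : (U.card : ℝ) / L ≤ 1 / l := by
    rw [div_le_div_iff₀ hL0 hl0]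
    have h1 := hUcard
    rw [le_div_iff₀ hl0] at h1
    have h2 : (0 : ℝ) ≤ U.card * l := by positivity
    linarith
  have hpE : ∀ p : ℕ, p.Prime → p ∣ E → p ∈ U.image g := by
    intro p hp hpd
    obtain ⟨i, hi, h⟩ := (Nat.Prime.prime hp).exists_mem_finset_dvd hpd
    rw [Finset.mem_image]
    exact ⟨i, hi, ((Nat.prime_dvd_prime_iff_eq hp (hgp i hi)).1 (hp.dvd_of_dvd_pow h)).symm⟩
  have hpD : ∀ p : ℕ, p.Prime → p ∣ D₀ → p ∈ P := by
    intro p hp hpd
    obtain ⟨q, hq, h⟩ := (Nat.Prime.prime hp).exists_mem_finset_dvd hpd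
    exact ((Nat.prime_dvd_prime_iff_eq hp (hP q hq)).1 (hp.dvd_of_dvd_pow h)) ▸ hq
  -- the size of the modulus
  have hsize : ((D₀ * E : ℕ) : ℝ) ≤ x ^ (1 - δ) := by
    have hER : (0 : ℝ) < E := by exact_mod_cast hE0
    have hDR : (0 : ℝ) < D₀ := by linarith
    rw [← Real.log_le_log_iff (by push_cast; positivity) (by positivity),
      Real.log_rpow (by positivity), hlx]
    push_cast
    rw [Real.log_mul hDR.ne' hER.ne']
    have h1 : Real.log E ≤ k * U.card * (a8 + l) := by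
      have h2 : Real.log (E : ℝ) = ∑ i ∈ U, k * Real.log (g i) := by
        rw [hE]
        push_cast
        rw [Real.log_prod (fun i hi => by
          have := (hgp i hi).pos
          positivity)]
        refine Finset.sum_congr rfl fun i _ => ?_
        rw [Real.log_pow]
      rw [h2]
      have h3 : ∑ i ∈ U, (k : ℝ) * Real.log (g i) ≤ ∑ i ∈ U, (k : ℝ) * (a8 + l) := by
        refine Finset.sum_le_sum fun i hi => mul_le_mul_of_nonneg_left ?_ hk0.le
        rw [← hlog8L]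
        exact Real.log_le_log (by exact_mod_cast (hgp i hi).pos) (hg8 i hi)
      rw [Finset.sum_const, nsmul_eq_mul] at h3
      linarith
    have h2 : k * (U.card : ℝ) * (a8 + l) ≤ ρ * (L / l) * (a8 + l) :=
      mul_le_mul_of_nonneg_right hUk (by linarith)
    have h3 : ρ * (L / l) * (a8 + l) = ρ * L + (ρ * a8) * (L / l) := by
      field_simp
      ring
    have h4 : (ρ * a8) * (L / l) ≤ (ε - ρ) / 4 * L := by
      have h5 : ρ * a8 ≤ (ε - ρ) / 4 * l := by linarith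
      calc (ρ * a8) * (L / l) ≤ ((ε - ρ) / 4 * l) * (L / l) :=
            mul_le_mul_of_nonneg_right h5 hLl0.le
        _ = (ε - ρ) / 4 * L := by field_simp
    have h6 : (1 - δ) * (ε * L) = ε * L - (ε - ρ) / 4 * L := by
      rw [← hδε]; ring
    rw [h6]
    have h7 : 0 ≤ (ε - ρ) * L := mul_nonneg hερ.le hL0.le
    linarith
  have hd1 : 1 ≤ D₀ * E := Nat.mul_pos hD₀0 hE0
  have hcond : (∑ p ∈ (D₀ * E).primeFactors with
      Real.exp (Real.log (Real.log x) * Real.log (Real.log (Real.log (Real.log x))) /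
        (20 * Real.log (Real.log (Real.log x)))) < ((p : ℕ) : ℝ), 1 / ((p : ℕ) : ℝ)) ≤
      1 / Real.log (Real.log x) := by
    refine (Finset.sum_le_sum_of_subset_of_nonneg (t := U.image g) ?_
      (fun _ _ _ => by positivity)).trans (hsumim.trans (hUL.trans ?_))
    · intro p hp
      rw [Finset.mem_filter, Nat.mem_primeFactors] at hp
      obtain ⟨⟨hp1, hp2, _⟩, hp3⟩ := hp
      rcases hp1.dvd_mul.1 hp2 with h | h
      · have h1 := hPB p (hpD p hp1 h)
        linarith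
      · exact hpE p hp1 h
    · exact one_div_le_one_div_of_le (by linarith) hllxl
  obtain ⟨n, hn1, hn2, hn3, hn4⟩ := hbb x b1 (D₀ * E) hd1 hsize hcond a M
  obtain ⟨hn5, hn6⟩ := ha n hn1
  refine ⟨n, hn2, hn3, ?_, ?_⟩
  · intro i hi
    by_cases hiU : i ∈ U
    · exact ⟨g i, hgp i hiU, hn6 i hiU⟩
    · rw [hU, Finset.mem_filter] at hiU
      push Not at hiU
      obtain ⟨p, hp, h⟩ := hiU hi
      exact ⟨p, hP p hp, (dvd_add_iff (dvd_prod_of_mem _ hp) hn5 i).2 h⟩
  · intro p hp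
    refine lt_of_le_of_lt ?_ (hn4 p hp)
    have htot : 1 / D₀ * Real.exp (-2) ≤ (Nat.totient (D₀ * E) : ℝ) / ((D₀ * E : ℕ) : ℝ) := by
      rw [Nat.totient_mul hco]
      push_cast
      rw [mul_div_mul_comm]
      have h1 : (1 : ℝ) / D₀ ≤ (Nat.totient D₀ : ℝ) / D₀ := by
        apply div_le_div_of_nonneg_right _ (by linarith)
        exact_mod_cast Nat.totient_pos.2 hD₀0
      have h2 : Real.exp (-2) ≤ (Nat.totient E : ℝ) / E := by
        refine le_trans (Real.exp_le_exp.2 ?_) (tot_exp E hE0.ne')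
        have h3 : ∑ p ∈ E.primeFactors, 1 / (p : ℝ) ≤ 1 := by
          refine (Finset.sum_le_sum_of_subset_of_nonneg (t := U.image g) ?_
            (fun _ _ _ => by positivity)).trans (hsumim.trans (hUL.trans ?_))
          · intro p hp
            rw [Nat.mem_primeFactors] at hp
            exact hpE p hp.1 hp.2.1
          · rw [div_le_one hl0]; linarith
        linarith
      exact mul_le_mul h1 h2 (Real.exp_pos _).le (by positivity)
    obtain ⟨hF1, hF2⟩ := hR L hLR (Real.log x) hlx.ge (by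
      rw [hlx]
      calc ε * L ≤ 1 * L := mul_le_mul_of_nonneg_right hε1 hL0.le
        _ = L := one_mul L)
    have h3 : F (Real.log x) = Real.log x * (Real.log (Real.log x)) ^ 2 *
          Real.log (Real.log (Real.log (Real.log x))) / (Real.log (Real.log (Real.log x))) ^ 2 := rfl
    rw [← h3]
    calc c₀ * (1 / D₀ * Real.exp (-2) * (ε / 8)) * F L
        = c₀ * ((1 / D₀ * Real.exp (-2)) * (ε / 8 * F L)) := by ring
      _ ≤ c₀ * ((Nat.totient (D₀ * E) : ℝ) / ((D₀ * E : ℕ) : ℝ) * F (Real.log x)) := by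
          apply mul_le_mul_of_nonneg_left _ hc₀.le
          exact mul_le_mul htot hF2 (by positivity) (by positivity)

end Pool.Agent.H436.RG
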